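import Pool.Agent.helper55.FPZ.SpecN

set_option autoImplicit false

namespace Pool.Agent.FPZ

open Matrix Polynomial Pool.Agent.PL Pool.Agent.X4

open scoped IntermediateField.algebraAdjoinAdjoin in
theorem ND3_lin (k K : Type) [Field k] [Field K] [Algebra k K] (s : Set K)
    (hs : AlgebraicIndependent k ((↑) : s → K)) (I : Type) (a : I → algebraicClosure k K)
    (ha : LinearIndependent k a) :
    LinearIndependent (IntermediateField.adjoin k s) (fun i => (a i : K)) := by
  rw [← LinearIndependent.iff_fractionRing (Algebra.adjoin k s) (IntermediateField.adjoin k s)]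
  rw [linearIndependent_iff']
  intro t g hg i hi
  have hx : AlgebraicIndependent (algebraicClosure k K) ((↑) : s → K) := hs.algebraicClosure
  have hmem : ∀ j, ∃ f : MvPolynomial s k, MvPolynomial.aeval ((↑) : s → K) f = (g j : K) := by
    intro j
    have h1 : (g j : K) ∈ Algebra.adjoin k s := (g j).2
    have h2 : Algebra.adjoin k s ≤ (MvPolynomial.aeval ((↑) : s → K) : MvPolynomial s k →ₐ[k] K).range := by
      rw [← Algebra.adjoin_range_eq_range_aeval, Subtype.range_coe]
    exact h2 h1
  choose f hf using hmem
  set P : MvPolynomial s (algebraicClosure k K) :=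
    ∑ j ∈ t, MvPolynomial.C (a j) * MvPolynomial.map (algebraMap k (algebraicClosure k K)) (f j) with hP
  have hP0 : MvPolynomial.aeval ((↑) : s → K) P = 0 := by
    rw [hP, map_sum]
    have h3 : ∀ j ∈ t, MvPolynomial.aeval ((↑) : s → K) (MvPolynomial.C (a j) *
        MvPolynomial.map (algebraMap k (algebraicClosure k K)) (f j)) = g j • (a j : K) := by
      intro j _
      rw [map_mul, MvPolynomial.aeval_C, MvPolynomial.aeval_map_algebraMap, hf j, mul_comm]
      rfl
    rw [Finset.sum_congr rfl h3]
    exact hg
  have hPz : P = 0 := (injective_iff_map_eq_zero _).1 hx P hP0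
  have hfi : f i = 0 := by
    ext m
    have h4 : MvPolynomial.coeff m P = 0 := by rw [hPz]; rfl
    rw [hP, MvPolynomial.coeff_sum] at h4
    have h5 : ∑ j ∈ t, MvPolynomial.coeff m (f j) • a j = 0 := by
      rw [← h4]
      refine Finset.sum_congr rfl fun j _ => ?_
      rw [MvPolynomial.coeff_C_mul, MvPolynomial.coeff_map, Algebra.smul_def, mul_comm]
    exact (linearIndependent_iff'.1 ha) t (fun j => MvPolynomial.coeff m (f j)) h5 i hi
  have h6 : (g i : K) = 0 := by rw [← hf i, hfi, map_zero]
  exact Subtype.ext h6

theorem ND3_key (k K : Type) [Field k] [Field K] [Algebra k K] [Algebra.EssFiniteType k K] :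
    FiniteDimensional k (algebraicClosure k K) := by
  obtain ⟨s, hs⟩ := exists_finset_isTranscendenceBasis k K
  haveI halg : Algebra.IsAlgebraic (IntermediateField.adjoin k (s : Set K)) K := by
    have gen : ∀ T : Set K, T = (s : Set K) → Algebra.IsAlgebraic (IntermediateField.adjoin k T) K →
        Algebra.IsAlgebraic (IntermediateField.adjoin k (s : Set K)) K := by
      rintro _ rfl h
      exact h
    exact gen _ (by ext x; simp) hs.isAlgebraic_field
  haveI : Algebra.EssFiniteType (IntermediateField.adjoin k (s : Set K)) K :=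
    Algebra.EssFiniteType.of_comp k _ K
  haveI : Module.Finite (IntermediateField.adjoin k (s : Set K)) K :=
    Algebra.finite_of_essFiniteType_of_isAlgebraic
  have hr : Module.rank k (algebraicClosure k K) ≤
      (Module.finrank (IntermediateField.adjoin k (s : Set K)) K : ℕ) := by
    apply rank_le
    intro t ht
    have h1 := ND3_lin k K (s : Set K) hs.1 t (fun i => (i : algebraicClosure k K)) ht
    have h2 := h1.fintype_card_le_finrank
    simpa using h2
  exact Module.rank_lt_aleph0_iff.1 (lt_of_le_of_lt hr (Cardinal.natCast_lt_aleph0))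

theorem ND3_gen (k F : Type) [Field k] [Field F] [Algebra k F] (S : Finset F) :
    ∃ L : IntermediateField k F, FiniteDimensional k L ∧
    ∀ x ∈ IntermediateField.adjoin k (S : Set F), IsAlgebraic k x → x ∈ L := by
  set K := IntermediateField.adjoin k (S : Set F) with hK
  haveI : Algebra.EssFiniteType k K := by
    rw [IntermediateField.essFiniteType_iff]
    exact ⟨S, rfl⟩
  haveI := ND3_key k K
  refine ⟨IntermediateField.lift (algebraicClosure k K),
    (IntermediateField.liftAlgEquiv (algebraicClosure k K)).toLinearEquiv.finiteDimensional, ?_⟩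
  intro x hx halg
  have h1 : IsAlgebraic k (⟨x, hx⟩ : K) := by
    rw [← isAlgebraic_algHom_iff K.val Subtype.val_injective]
    exact halg
  have h2 : (⟨x, hx⟩ : K) ∈ algebraicClosure k K := mem_algebraicClosure_iff.2 h1
  exact (IntermediateField.mem_lift (⟨x, hx⟩ : K)).2 h2

theorem ND3 : ND3_stmt := by
  intro F _ _ S
  obtain ⟨L, h1, h2⟩ := ND3_gen ℚ F S
  exact ⟨L, h1, h2⟩

end Pool.Agent.FPZ
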